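import Pool.Agent.Y451.AM.Main

set_option autoImplicit false

/-!
# Measurable unfriendly colourings of Schreier graphs of free actions of amenable groups
-/

open MeasureTheory

noncomputable section

namespace Pool.Agent.Results.MP_99e1f5_lc.AmenableSchreier

/-- amenability: for every finite `S` and `ε > 0` there is a nonempty finite set `K` with
`|{v ∈ K : s v ∉ K}| ≤ ε |K|` for all `s ∈ S` -/
def Amenable (Γ : Type) [Group Γ] : Prop :=
  ∀ (S : Finset Γ) (ε : ℝ), 0 < ε → ∃ K : Finset Γ, K.Nonempty ∧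
    ∀ s ∈ S, (({v : Γ | v ∈ K ∧ s * v ∉ K}.ncard : ℕ) : ℝ) ≤ ε * (K.card : ℝ)

/-- the Schreier graph of an action for a finite set `T` of group elements, as a set of pairs -/
def schreier {Γ X : Type} [Group Γ] [MulAction Γ X] (T : Finset Γ) : Set (X × X) :=
  {p | ∃ s ∈ T, p.2 = s • p.1}

/-- `c` is an unfriendly colouring of the graph `G` at `x`: twice the number of neighbours of
another colour is at least the degree -/
def UnfriendlyAt {X : Type} (G : Set (X × X)) (c : X → Fin 2) (x : X) : Prop :=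
  {y | (x, y) ∈ G}.ncard ≤ 2 * {y | (x, y) ∈ G ∧ c y ≠ c x}.ncard

/-- Let `Γ` be a countable amenable group, `T` a finite symmetric subset without `1`. For every
free Borel action of `Γ` on a standard Borel space `X` and every Borel probability measure `μ` on
`X` (not assumed invariant, with no condition on the Radon-Nikodym cocycle) the Schreier graph has a
Borel colouring with two colours that is unfriendly at almost every point. -/
theorem result : ∀ (Γ : Type) [Group Γ] [Countable Γ], Amenable Γ →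
    ∀ T : Finset Γ, (∀ s ∈ T, s⁻¹ ∈ T) → 1 ∉ T →
    ∀ (X : Type) [MeasurableSpace X] [StandardBorelSpace X] [MulAction Γ X],
    (∀ g : Γ, Measurable (fun x : X => g • x)) → (∀ (g : Γ) (x : X), g • x = x → g = 1) →
    ∀ μ : Measure X, IsProbabilityMeasure μ →
    ∃ c : X → Fin 2, Measurable c ∧
      ∀ᵐ x ∂μ, UnfriendlyAt (schreier (Γ := Γ) (X := X) T) c x := by
  intro Γ _ _ hAm T hT h1 X _ _ _ hm hf μ hμ
  obtain ⟨c, hc, hae⟩ := Pool.Agent.Y451.AM.unfriendly hAm T hT h1 X (fun g x => g • x)
    ⟨fun x => one_smul Γ x, fun g h x => mul_smul g h x, hm, hf⟩ μ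
  refine ⟨c, hc, ?_⟩
  filter_upwards [hae] with x hx
  have hinj : Function.Injective (fun s : Γ => s • x) := by
    intro s s' h
    have h2 : (s'⁻¹ * s) • x = x := by
      rw [mul_smul]
      have h3 : s • x = s' • x := h
      rw [h3, inv_smul_smul]
    have h4 := hf _ _ h2
    exact (inv_mul_eq_one.1 h4).symm
  have e1 : {y | (x, y) ∈ schreier (Γ := Γ) (X := X) T} = (fun s : Γ => s • x) '' (T : Set Γ) := by
    ext y
    constructor
    · rintro ⟨s, hs, h⟩
      exact ⟨s, hs, h.symm⟩
    · rintro ⟨s, hs, h⟩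
      exact ⟨s, hs, h.symm⟩
  have e2 : {y | (x, y) ∈ schreier (Γ := Γ) (X := X) T ∧ c y ≠ c x} =
      (fun s : Γ => s • x) '' {s : Γ | s ∈ T ∧ c (s • x) ≠ c x} := by
    ext y
    constructor
    · rintro ⟨⟨s, hs, h⟩, hne⟩
      refine ⟨s, ⟨hs, ?_⟩, h.symm⟩
      have h5 : y = s • x := h
      rw [← h5]
      exact hne
    · rintro ⟨s, ⟨hs, hne⟩, h⟩
      have h5 : s • x = y := h
      refine ⟨⟨s, hs, h5.symm⟩, ?_⟩
      rw [← h5]
      exact hne
  unfold UnfriendlyAt
  rw [e1, e2, Set.ncard_image_of_injective _ hinj, Set.ncard_image_of_injective _ hinj,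
    Set.ncard_coe_finset]
  exact hx

end Pool.Agent.Results.MP_99e1f5_lc.AmenableSchreier

end
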